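import Mathlib
import Pool.Agent.LeX.RomD

/-!
# DigM.Avg: the average of the singular series over the differences `a^j - a^i`

`a^j - a^i = a^i (a^(j-i) - 1)`, `F` is submultiplicative, bounded on the powers of `a`, and
`∑_{d ≤ K} F(a^d - 1)^4 ≤ C K` (Romanoff's series, `LeX/RomA.lean`).
-/

namespace Pool.Agent.DigM

open Finset Pool.Agent.Lib.PrimePairs Pool.Agent.LeX

theorem sum_diff (a : ℕ) (ha : 2 ≤ a) : ∃ C : ℝ, 0 < C ∧ ∀ s K : ℕ, 2 ≤ K →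
    ∑ u ∈ ((Icc 1 K) ×ˢ (Icc 1 K)).filter (fun u => u.1 < u.2),
      F (2 * (a ^ (s + u.2) - a ^ (s + u.1))) ^ 2 ≤ C * (K : ℝ) ^ 2 := by
  obtain ⟨C0, hC0, h0⟩ := F_pow_le a ha
  obtain ⟨C1, hC1, h1⟩ := sum_pow_sub a ha
  have hF0 : ∀ n, 0 ≤ F n := F_nonneg
  refine ⟨F 2 ^ 2 * C0 ^ 2 * (1 + C1) + 1, by
    have := hF0 2
    positivity, fun s K hK => ?_⟩
  have hterm : ∀ j k : ℕ, j < k → F (2 * (a ^ k - a ^ j)) ^ 2 ≤
      F 2 ^ 2 * C0 ^ 2 * (1 + F (a ^ (k - j) - 1) ^ 4) := by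
    intro j k hjk
    have e1 : a ^ k - a ^ j = a ^ j * (a ^ (k - j) - 1) := by
      obtain ⟨d, rfl⟩ : ∃ d, k = j + d := ⟨k - j, by omega⟩
      rw [Nat.add_sub_cancel_left, pow_add, Nat.mul_sub, mul_one]
    have e2 : F (2 * (a ^ k - a ^ j)) ≤ F 2 * (C0 * F (a ^ (k - j) - 1)) := by
      rw [e1]
      refine (F_mul_le 2 _).trans (mul_le_mul_of_nonneg_left ?_ (hF0 2))
      refine (F_mul_le _ _).trans ?_
      exact mul_le_mul_of_nonneg_right (h0 j) (hF0 _)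
    set x := F (a ^ (k - j) - 1) with hx
    have hx0 : 0 ≤ x := hF0 _
    have h20 : 0 ≤ F 2 := hF0 2
    calc F (2 * (a ^ k - a ^ j)) ^ 2 ≤ (F 2 * (C0 * x)) ^ 2 := pow_le_pow_left₀ (hF0 _) e2 2
      _ = F 2 ^ 2 * C0 ^ 2 * x ^ 2 := by ring
      _ ≤ F 2 ^ 2 * C0 ^ 2 * (1 + x ^ 4) := by
          have h3 : x ^ 2 ≤ 1 + x ^ 4 := by nlinarith [sq_nonneg (x ^ 2 - 1)]
          gcongr
  have hA : ∑ u ∈ ((Icc 1 K) ×ˢ (Icc 1 K)).filter (fun u => u.1 < u.2),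
      F (a ^ (u.2 - u.1) - 1) ^ 4 ≤ C1 * (K : ℝ) ^ 2 := by
    rw [Finset.sum_filter, Finset.sum_product]
    have h3 : ∀ j ∈ Icc 1 K, (∑ k ∈ Icc 1 K, if j < k then F (a ^ (k - j) - 1) ^ 4 else 0) ≤
        C1 * K := by
      intro j _
      rw [← Finset.sum_filter]
      have h4 : ∑ k ∈ (Icc 1 K).filter (fun k => j < k), F (a ^ (k - j) - 1) ^ 4 =
          ∑ d ∈ ((Icc 1 K).filter (fun k => j < k)).image (fun k => k - j), F (a ^ d - 1) ^ 4 := by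
        rw [Finset.sum_image]
        intro b hb c hc hbc
        rw [Finset.mem_coe, Finset.mem_filter] at hb hc
        simp only at hbc
        omega
      rw [h4]
      refine le_trans (Finset.sum_le_sum_of_subset_of_nonneg ?_ fun d _ _ => by
        have := hF0 (a ^ d - 1)
        positivity) (h1 K hK)
      intro d hd
      rw [Finset.mem_image] at hd
      obtain ⟨k, hk, rfl⟩ := hd
      rw [Finset.mem_filter, Finset.mem_Icc] at hk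
      rw [Finset.mem_Icc]
      omega
    refine (Finset.sum_le_sum h3).trans (le_of_eq ?_)
    rw [Finset.sum_const, Nat.card_Icc, nsmul_eq_mul, Nat.add_sub_cancel]
    ring
  have hB : ∑ u ∈ ((Icc 1 K) ×ˢ (Icc 1 K)).filter (fun u => u.1 < u.2), (1 : ℝ) ≤ (K : ℝ) ^ 2 := by
    rw [Finset.sum_const, nsmul_eq_mul, mul_one]
    have h5 : (((Icc 1 K) ×ˢ (Icc 1 K)).filter (fun u => u.1 < u.2)).card ≤ K * K := by
      refine (Finset.card_filter_le _ _).trans ?_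
      rw [Finset.card_product, Nat.card_Icc, Nat.add_sub_cancel]
    rw [sq]
    exact_mod_cast h5
  calc ∑ u ∈ ((Icc 1 K) ×ˢ (Icc 1 K)).filter (fun u => u.1 < u.2), F (2 * (a ^ (s + u.2) - a ^ (s + u.1))) ^ 2
      ≤ ∑ u ∈ ((Icc 1 K) ×ˢ (Icc 1 K)).filter (fun u => u.1 < u.2),
        F 2 ^ 2 * C0 ^ 2 * (1 + F (a ^ (u.2 - u.1) - 1) ^ 4) :=
        Finset.sum_le_sum fun u hu => by
          have h1 := (Finset.mem_filter.mp hu).2
          have h2 := hterm (s + u.1) (s + u.2) (by omega)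
          have h3 : s + u.2 - (s + u.1) = u.2 - u.1 := by omega
          rwa [h3] at h2
    _ = F 2 ^ 2 * C0 ^ 2 * (∑ u ∈ ((Icc 1 K) ×ˢ (Icc 1 K)).filter (fun u => u.1 < u.2), (1 : ℝ) +
        ∑ u ∈ ((Icc 1 K) ×ˢ (Icc 1 K)).filter (fun u => u.1 < u.2), F (a ^ (u.2 - u.1) - 1) ^ 4) := by
        rw [← Finset.mul_sum, Finset.sum_add_distrib]
    _ ≤ F 2 ^ 2 * C0 ^ 2 * ((K : ℝ) ^ 2 + C1 * (K : ℝ) ^ 2) := by
        have := hF0 2
        gcongr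
    _ = F 2 ^ 2 * C0 ^ 2 * (1 + C1) * (K : ℝ) ^ 2 := by ring
    _ ≤ (F 2 ^ 2 * C0 ^ 2 * (1 + C1) + 1) * (K : ℝ) ^ 2 := by
        have : (0 : ℝ) ≤ (K : ℝ) ^ 2 := by positivity
        nlinarith

end Pool.Agent.DigM
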