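import Mathlib

/-!
# DigM.Pal: the Paley-Zygmund inequality for counting functions
-/

namespace Pool.Agent.DigM

open Finset

theorem mono_aux {S S1 Q Z : ℝ} (hS0 : 0 < S) (hSS : S ≤ S1) (hQ : 0 ≤ Q) (h : S1 ^ 2 / 4 ≤ (S1 + Q) * Z) :
    S ^ 2 / (4 * (S + Q)) ≤ Z := by
  have hS10 : 0 < S1 := lt_of_lt_of_le hS0 hSS
  have h6 : S ^ 2 / (4 * (S + Q)) ≤ S1 ^ 2 / (4 * (S1 + Q)) := by
    rw [div_le_div_iff₀ (by linarith) (by linarith)]
    have e1 : 0 ≤ (S1 - S) * (S1 * S + Q * (S1 + S)) :=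
      mul_nonneg (by linarith) (add_nonneg (mul_nonneg hS10.le hS0.le) (mul_nonneg hQ (by linarith)))
    have e2 : S1 ^ 2 * (4 * (S + Q)) - S ^ 2 * (4 * (S1 + Q)) =
        4 * ((S1 - S) * (S1 * S + Q * (S1 + S))) := by ring
    linarith
  refine h6.trans ?_
  rw [div_le_iff₀ (by linarith)]
  linarith

theorem fin_aux {S S1 Q Z A B : ℝ} (hS0 : 0 < S) (hSS : S ≤ S1) (hQ : 0 ≤ Q) (hZ : 0 ≤ Z)
    (hA : S1 / 2 ≤ A) (hB : A ^ 2 ≤ B * Z) (hBQ : B ≤ S1 + Q) : S ^ 2 / (4 * (S + Q)) ≤ Z := by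
  refine mono_aux hS0 hSS hQ ?_
  have h1 : 0 ≤ S1 / 2 := by linarith
  have h2 : (S1 / 2) ^ 2 ≤ A ^ 2 := pow_le_pow_left₀ h1 hA 2
  have h3 : B * Z ≤ (S1 + Q) * Z := mul_le_mul_of_nonneg_right hBQ hZ
  have h4 : S1 ^ 2 / 4 = (S1 / 2) ^ 2 := by ring
  linarith

/-- Let `s t` be the number of the `i ∈ I` with `E i t`. If `S = ∑ s`, `2 τ #W ≤ S` and `2 ∑_{i<j} #(E_i ∩ E_j) ≤ Q`
then `S² ≤ 4 (S + Q) #{t : s t ≥ τ}`. -/
theorem paley (W I : Finset ℕ) (E : ℕ → ℕ → Prop) [∀ i, DecidablePred (E i)] [∀ t, DecidablePred fun i => E i t]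
    (τ : ℕ) {S Q : ℝ}
    (hS : S ≤ ∑ i ∈ I, ((W.filter (E i)).card : ℝ)) (hS0 : 0 < S)
    (hQ : 2 * ∑ u ∈ (I ×ˢ I).filter (fun u => u.1 < u.2),
      ((W.filter fun t => E u.1 t ∧ E u.2 t).card : ℝ) ≤ Q)
    (hτ : 2 * τ * (W.card : ℝ) ≤ S) :
    S ^ 2 / (4 * (S + Q)) ≤ ((W.filter fun t => τ ≤ (I.filter fun i => E i t).card).card : ℝ) := by
  classical
  have h1 : ∑ i ∈ I, ((W.filter (E i)).card : ℝ) =
      ∑ t ∈ W, ((I.filter fun i => E i t).card : ℝ) := by
    have e1 : ∀ i ∈ I, ((W.filter (E i)).card : ℝ) = ∑ t ∈ W, if E i t then (1 : ℝ) else 0 := by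
      intro i _
      rw [Finset.sum_boole]
    have e2 : ∀ t ∈ W, ((I.filter fun i => E i t).card : ℝ) = ∑ i ∈ I, if E i t then (1 : ℝ) else 0 := by
      intro t _
      rw [Finset.sum_boole]
    rw [Finset.sum_congr rfl e1, Finset.sum_congr rfl e2, Finset.sum_comm]
  have h2 : ∑ u ∈ (I ×ˢ I).filter (fun u => u.1 < u.2), ((W.filter fun t => E u.1 t ∧ E u.2 t).card : ℝ) =
      ∑ t ∈ W, ((((I ×ˢ I).filter (fun u => u.1 < u.2)).filter fun u => E u.1 t ∧ E u.2 t).card : ℝ) := by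
    have e1 : ∀ u ∈ (I ×ˢ I).filter (fun u => u.1 < u.2),
        ((W.filter fun t => E u.1 t ∧ E u.2 t).card : ℝ) =
          ∑ t ∈ W, if E u.1 t ∧ E u.2 t then (1 : ℝ) else 0 := by
      intro u _
      rw [Finset.sum_boole]
    have e2 : ∀ t ∈ W, ((((I ×ˢ I).filter (fun u => u.1 < u.2)).filter fun u => E u.1 t ∧ E u.2 t).card : ℝ) =
        ∑ u ∈ (I ×ˢ I).filter (fun u => u.1 < u.2), if E u.1 t ∧ E u.2 t then (1 : ℝ) else 0 := by
      intro t _
      rw [Finset.sum_boole]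
    rw [Finset.sum_congr rfl e1, Finset.sum_congr rfl e2, Finset.sum_comm]
  set s : ℕ → ℝ := fun t => ((I.filter fun i => E i t).card : ℝ) with hs
  have hs0 : ∀ t, 0 ≤ s t := fun t => Nat.cast_nonneg _
  set S1 : ℝ := ∑ t ∈ W, s t with hS1
  have hSS1 : S ≤ S1 := hS.trans (le_of_eq h1)
  -- the second moment
  have hsq : ∑ t ∈ W, s t ^ 2 ≤ S1 + Q := by
    have e1 : ∀ t ∈ W, s t ^ 2 ≤ s t +
        2 * ((((I ×ˢ I).filter (fun u => u.1 < u.2)).filter fun u => E u.1 t ∧ E u.2 t).card : ℝ) := by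
      intro M _
      set T := I.filter fun i => E i M with hT
      have h4 : (T.offDiag.card : ℝ) ≤
          2 * ((((I ×ˢ I).filter (fun u => u.1 < u.2)).filter fun u => E u.1 M ∧ E u.2 M).card : ℝ) := by
        have h5 : T.offDiag.card ≤
            (((I ×ˢ I).filter (fun u => u.1 < u.2)).filter fun u => E u.1 M ∧ E u.2 M).card +
            (((I ×ˢ I).filter (fun u => u.1 < u.2)).filter fun u => E u.1 M ∧ E u.2 M).card := by
          set Q := ((I ×ˢ I).filter (fun u => u.1 < u.2)).filter fun u => E u.1 M ∧ E u.2 M with hQ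
          have h6 : T.offDiag ⊆ Q ∪ Q.image Prod.swap := by
            rintro ⟨i, j⟩ hij
            rw [Finset.mem_offDiag] at hij
            obtain ⟨hi, hj, hne⟩ := hij
            rw [hT, Finset.mem_filter] at hi hj
            rcases lt_or_gt_of_ne hne with h | h
            · refine Finset.mem_union_left _ ?_
              rw [hQ, Finset.mem_filter, Finset.mem_filter, Finset.mem_product]
              exact ⟨⟨⟨hi.1, hj.1⟩, h⟩, hi.2, hj.2⟩
            · refine Finset.mem_union_right _ ?_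
              rw [Finset.mem_image]
              refine ⟨(j, i), ?_, rfl⟩
              rw [hQ, Finset.mem_filter, Finset.mem_filter, Finset.mem_product]
              exact ⟨⟨⟨hj.1, hi.1⟩, h⟩, hj.2, hi.2⟩
          refine (Finset.card_le_card h6).trans ((Finset.card_union_le _ _).trans ?_)
          exact Nat.add_le_add_left Finset.card_image_le _
        have h7 : ((T.offDiag.card : ℕ) : ℝ) ≤ _ := Nat.cast_le.mpr h5
        push_cast at h7
        linarith
      have h8 : (T.offDiag.card : ℝ) = (T.card : ℝ) * T.card - T.card := by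
        rw [Finset.offDiag_card, Nat.cast_sub (Nat.le_mul_self _)]
        push_cast
        ring
      have h9 : s M = (T.card : ℝ) := rfl
      rw [h9]
      nlinarith
    calc ∑ t ∈ W, s t ^ 2 ≤ ∑ t ∈ W, (s t +
        2 * ((((I ×ˢ I).filter (fun u => u.1 < u.2)).filter fun u => E u.1 t ∧ E u.2 t).card : ℝ)) :=
          Finset.sum_le_sum e1
      _ = S1 + 2 * ∑ t ∈ W,
        ((((I ×ˢ I).filter (fun u => u.1 < u.2)).filter fun u => E u.1 t ∧ E u.2 t).card : ℝ) := by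
          rw [Finset.sum_add_distrib, Finset.mul_sum]
      _ ≤ S1 + Q := by
          rw [← h2]
          linarith
  -- the large values
  set g : ℕ → ℝ := fun t => if τ ≤ (I.filter fun i => E i t).card then 1 else 0 with hg
  set Z : ℝ := ((W.filter fun t => τ ≤ (I.filter fun i => E i t).card).card : ℝ) with hZ
  have hgsum : ∑ t ∈ W, g t ^ 2 = Z := by
    have e1 : ∀ t ∈ W, g t ^ 2 = if τ ≤ (I.filter fun i => E i t).card then (1 : ℝ) else 0 := by
      intro t _
      simp only [hg]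
      split_ifs <;> norm_num
    rw [Finset.sum_congr rfl e1, Finset.sum_boole]
  have hlow : S1 / 2 ≤ ∑ t ∈ W, s t * g t := by
    have e1 : ∀ t ∈ W, s t ≤ s t * g t + τ := by
      intro t _
      simp only [hg]
      split_ifs with h
      · rw [mul_one]
        have : (0 : ℝ) ≤ τ := Nat.cast_nonneg _
        linarith
      · rw [mul_zero, zero_add]
        have h' : (I.filter fun i => E i t).card ≤ τ := by omega
        exact Nat.cast_le.mpr h'
    have e2 : S1 ≤ ∑ t ∈ W, s t * g t + τ * (W.card : ℝ) := by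
      refine (Finset.sum_le_sum e1).trans (le_of_eq ?_)
      rw [Finset.sum_add_distrib, Finset.sum_const, nsmul_eq_mul]
      ring
    linarith
  have hCS := Finset.sum_mul_sq_le_sq_mul_sq W s g
  rw [hgsum] at hCS
  have hZ0 : 0 ≤ Z := Nat.cast_nonneg _
  have hQ0 : 0 ≤ Q := by
    refine le_trans (mul_nonneg zero_le_two (Finset.sum_nonneg fun u _ => Nat.cast_nonneg _)) hQ
  exact fin_aux hS0 hSS1 hQ0 hZ0 hlow hCS hsq

end Pool.Agent.DigM
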