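import Mathlib

/-!
# DigM.Tot: moduli coprime to `a` with large `P / φ(P)`
-/

namespace Pool.Agent.DigM

open Finset Filter

theorem ratio_prod (S : Finset ℕ) (hS : ∀ p ∈ S, p.Prime) :
    1 + ∑ p ∈ S, 1 / (p : ℝ) ≤ ((∏ p ∈ S, p : ℕ) : ℝ) / (Nat.totient (∏ p ∈ S, p) : ℝ) := by
  classical
  induction S using Finset.induction_on with
  | empty => simp
  | insert q S hq ih =>
    have hS' : ∀ p ∈ S, p.Prime := fun p hp => hS p (Finset.mem_insert_of_mem hp)
    have ih' := ih hS'
    have hqp : q.Prime := hS q (Finset.mem_insert_self _ _)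
    have hcop : Nat.Coprime q (∏ p ∈ S, p) := by
      refine Nat.Coprime.prod_right fun p hp => ?_
      exact (Nat.coprime_primes hqp (hS' p hp)).2 fun h => hq (h ▸ hp)
    rw [Finset.sum_insert hq, Finset.prod_insert hq, Nat.totient_mul hcop, Nat.totient_prime hqp]
    have hq1 : (1 : ℝ) < q := by exact_mod_cast hqp.one_lt
    have hP : (0 : ℝ) < (Nat.totient (∏ p ∈ S, p) : ℝ) := by
      have : 0 < Nat.totient (∏ p ∈ S, p) :=
        Nat.totient_pos.2 (Finset.prod_pos fun p hp => (hS' p hp).pos)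
      exact_mod_cast this
    have hcast : ((q - 1 : ℕ) : ℝ) = q - 1 := by
      rw [Nat.cast_sub hqp.one_lt.le, Nat.cast_one]
    push_cast
    push_cast at ih'
    rw [hcast] 
    set R : ℝ := (∏ p ∈ S, (p : ℝ)) / (Nat.totient (∏ p ∈ S, p) : ℝ) with hR
    have hsum0 : 0 ≤ ∑ p ∈ S, 1 / (p : ℝ) := Finset.sum_nonneg fun p _ => by positivity
    have e1 : (q : ℝ) * (∏ p ∈ S, (p : ℝ)) / ((q - 1) * (Nat.totient (∏ p ∈ S, p) : ℝ)) =
        q / (q - 1) * R := by
      rw [hR, div_mul_div_comm]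
    rw [e1]
    have e2 : 1 + 1 / (q : ℝ) ≤ q / (q - 1) := by
      rw [le_div_iff₀ (by linarith)]
      have : (1 + 1 / (q : ℝ)) * (q - 1) = q - 1 / q := by
        field_simp
        ring
      rw [this]
      have : 0 < 1 / (q : ℝ) := by positivity
      linarith
    have hR1 : 1 ≤ R := by linarith
    calc 1 + (1 / (q : ℝ) + ∑ p ∈ S, 1 / (p : ℝ)) ≤ 1 / (q : ℝ) * 1 + R := by linarith
      _ ≤ 1 / (q : ℝ) * R + R := by gcongr
      _ = (1 + 1 / (q : ℝ)) * R := by ring
      _ ≤ q / (q - 1) * R := by gcongr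

theorem exists_mod (a : ℕ) (ha : 2 ≤ a) (T : ℝ) : ∃ P : ℕ, 0 < P ∧ P.Coprime a ∧
    T ≤ (P : ℝ) / (Nat.totient P : ℝ) := by
  classical
  have h1 := not_summable_one_div_on_primes
  rw [not_summable_iff_tendsto_nat_atTop_of_nonneg] at h1
  swap
  · intro n
    exact Set.indicator_nonneg (fun x _ => by positivity) n
  obtain ⟨N, hN⟩ := (h1.eventually (eventually_ge_atTop (T + a.primeFactors.card))).exists
  set S : Finset ℕ := (range N).filter fun p => p.Prime ∧ ¬ p ∣ a with hS
  have hSp : ∀ p ∈ S, p.Prime := fun p hp => (Finset.mem_filter.1 hp).2.1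
  refine ⟨∏ p ∈ S, p, Finset.prod_pos fun p hp => (hSp p hp).pos, ?_, ?_⟩
  · refine Nat.Coprime.prod_left fun p hp => ?_
    exact (Nat.Prime.coprime_iff_not_dvd (hSp p hp)).2 (Finset.mem_filter.1 hp).2.2
  · refine le_trans ?_ (ratio_prod S hSp)
    have e1 : ∑ n ∈ range N, Set.indicator {p : ℕ | p.Prime} (fun n : ℕ => (1 : ℝ) / n) n ≤
        ∑ p ∈ S, 1 / (p : ℝ) + ∑ p ∈ a.primeFactors, (1 : ℝ) := by
      have e2 : ∑ n ∈ range N, Set.indicator {p : ℕ | p.Prime} (fun n : ℕ => (1 : ℝ) / n) n =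
          ∑ p ∈ (range N).filter Nat.Prime, 1 / (p : ℝ) := by
        rw [Finset.sum_filter]
        refine Finset.sum_congr rfl fun n _ => ?_
        rw [Set.indicator_apply]
        rfl
      rw [e2]
      have e3 : (range N).filter Nat.Prime ⊆ S ∪ a.primeFactors := by
        intro p hp
        rw [Finset.mem_filter] at hp
        rw [Finset.mem_union]
        by_cases h : p ∣ a
        · right
          exact Nat.mem_primeFactors.2 ⟨hp.2, h, by omega⟩
        · left
          rw [hS, Finset.mem_filter]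
          exact ⟨hp.1, hp.2, h⟩
      have e4 : Disjoint S a.primeFactors := by
        rw [Finset.disjoint_left]
        intro p hp hp'
        exact (Finset.mem_filter.1 hp).2.2 (Nat.dvd_of_mem_primeFactors hp')
      refine (Finset.sum_le_sum_of_subset_of_nonneg e3 fun p _ _ => by positivity).trans ?_
      rw [Finset.sum_union e4]
      refine add_le_add_right (Finset.sum_le_sum fun p hp => ?_) _
      have h2 : (1 : ℝ) ≤ p := by exact_mod_cast (Nat.prime_of_mem_primeFactors hp).one_lt.le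
      rw [div_le_one (by linarith)]
      exact h2
    rw [Finset.sum_const, nsmul_eq_mul, mul_one] at e1
    linarith

end Pool.Agent.DigM
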