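import Mathlib
import Pool.Agent.DigM.Avg
import Pool.Agent.LeX.Core

/-!
# DigM.Win: primes in the windows `(u a^n, v a^n]`
-/

namespace Pool.Agent.DigM

open Finset Filter

theorem card_primes_Ioc {A B : ℕ} (h : A ≤ B) :
    (((Ioc A B).filter Nat.Prime).card : ℝ) = (Nat.primeCounting B : ℝ) - Nat.primeCounting A := by
  have h1 : ∀ n : ℕ, Nat.primeCounting n = ((range (n + 1)).filter Nat.Prime).card := by
    intro n
    rw [Nat.primeCounting, Nat.primeCounting', Nat.count_eq_card_filter_range]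
  have h2 : (range (B + 1)).filter Nat.Prime =
      (range (A + 1)).filter Nat.Prime ∪ (Ioc A B).filter Nat.Prime := by
    ext x
    simp only [mem_filter, mem_range, mem_union, mem_Ioc]
    constructor
    · rintro ⟨h, hp⟩
      by_cases hx : x < A + 1
      · exact Or.inl ⟨hx, hp⟩
      · exact Or.inr ⟨⟨by omega, by omega⟩, hp⟩
    · rintro (⟨h, hp⟩ | ⟨⟨h, h'⟩, hp⟩)
      · exact ⟨by omega, hp⟩
      · exact ⟨by omega, hp⟩
  have h3 : Disjoint ((range (A + 1)).filter Nat.Prime) ((Ioc A B).filter Nat.Prime) := by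
    rw [Finset.disjoint_left]
    intro x hx hx'
    simp only [mem_filter, mem_range, mem_Ioc] at hx hx'
    omega
  rw [h1, h1, h2, card_union_of_disjoint h3]
  push_cast
  ring

theorem tendsto_pow_real {a : ℕ} (ha : 2 ≤ a) : Tendsto (fun n : ℕ => (a : ℝ) ^ n) atTop atTop :=
  tendsto_pow_atTop_atTop_of_one_lt (by
    have : 1 < a := by omega
    exact_mod_cast this)

theorem log_pos' {a : ℕ} (ha : 2 ≤ a) : 0 < Real.log a := Real.log_pos (by
  have : 1 < a := by omega
  exact_mod_cast this)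

theorem pi_scaled {a : ℕ} (ha : 2 ≤ a) {w : ℝ} (hw : 0 < w) :
    Tendsto (fun n : ℕ => (Nat.primeCounting ⌊w * (a : ℝ) ^ n⌋₊ : ℝ) * (n * Real.log a) / (a : ℝ) ^ n)
      atTop (nhds w) := by
  have hX := tendsto_pow_real ha
  have hL := log_pos' ha
  have h1 := Pool.Agent.Lib.PNT.pi_real.comp (hX.const_mul_atTop hw)
  -- the ratio of the logarithms
  have h2 : Tendsto (fun n : ℕ => (n * Real.log a) / Real.log (w * (a : ℝ) ^ n)) atTop (nhds 1) := by
    have h3 : Tendsto (fun n : ℕ => Real.log w / (n * Real.log a) + 1) atTop (nhds (0 + 1)) := by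
      refine Tendsto.add ?_ tendsto_const_nhds
      exact tendsto_const_nhds.div_atTop
        ((tendsto_natCast_atTop_atTop (R := ℝ)).atTop_mul_const hL)
    rw [zero_add] at h3
    have h4 := h3.inv₀ one_ne_zero
    rw [inv_one] at h4
    refine h4.congr' ?_
    filter_upwards [eventually_ge_atTop 1] with n hn
    have hn0 : (0 : ℝ) < n := by exact_mod_cast hn
    rw [Real.log_mul hw.ne' (by positivity), Real.log_pow]
    have h5 : Real.log w / (n * Real.log a) + 1 = (Real.log w + n * Real.log a) / (n * Real.log a) := by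
      field_simp
    rw [h5, inv_div]
  have h3 := (h1.mul h2).const_mul w
  rw [mul_one, mul_one] at h3
  refine h3.congr' ?_
  have h6 : ∀ᶠ n : ℕ in atTop, 1 < w * (a : ℝ) ^ n :=
    (hX.const_mul_atTop hw).eventually (eventually_gt_atTop 1)
  filter_upwards [h6] with n hn
  have h7 : Real.log (w * (a : ℝ) ^ n) ≠ 0 := (Real.log_pos hn).ne'
  have h8 : ((a : ℝ) ^ n) ≠ 0 := by
    have : (0 : ℝ) < a := by
      have : 0 < a := by omega
      exact_mod_cast this
    positivity
  simp only [Function.comp]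
  field_simp

theorem window_primes {a : ℕ} (ha : 2 ≤ a) {u v : ℝ} (hu : 0 < u) (huv : u < v) :
    ∀ᶠ n : ℕ in atTop, (v - u) / 2 * ((a : ℝ) ^ n / (n * Real.log a)) ≤
      (((Ioc ⌊u * (a : ℝ) ^ n⌋₊ ⌊v * (a : ℝ) ^ n⌋₊).filter Nat.Prime).card : ℝ) := by
  have h1 := (pi_scaled ha (hu.trans huv)).sub (pi_scaled ha hu)
  have h2 := h1.eventually (lt_mem_nhds (show (v - u) / 2 < v - u by linarith))
  filter_upwards [h2, eventually_ge_atTop 1] with n hn hn1
  have hL := log_pos' ha
  have hn0 : (0 : ℝ) < n := by exact_mod_cast hn1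
  have ha0 : (0 : ℝ) < a := by
    have : 0 < a := by omega
    exact_mod_cast this
  have hX : (0 : ℝ) < (a : ℝ) ^ n := by positivity
  rw [card_primes_Ioc (Nat.floor_mono (by gcongr))]
  rw [← sub_div, ← sub_mul, lt_div_iff₀ hX] at hn
  rw [← mul_div_assoc, div_le_iff₀ (by positivity)]
  exact hn.le

end Pool.Agent.DigM
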