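import Mathlib
import Pool.Agent.DigM.Win

/-!
# DigM.WinAP: primes in a reduced residue class in the windows `(u a^n, v a^n]`
-/

namespace Pool.Agent.DigM

open Finset Filter

theorem card_AP_Ioc {q : ℕ} (c : ZMod q) {A B : ℕ} (h : A ≤ B) :
    (((Ioc A B).filter (fun p : ℕ => p.Prime ∧ (p : ZMod q) = c)).card : ℝ) =
      (((Icc 1 B).filter (fun p : ℕ => p.Prime ∧ (p : ZMod q) = c)).card : ℝ) -
        ((Icc 1 A).filter (fun p : ℕ => p.Prime ∧ (p : ZMod q) = c)).card := by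
  have h2 : (Icc 1 B).filter (fun p : ℕ => p.Prime ∧ (p : ZMod q) = c) =
      (Icc 1 A).filter (fun p : ℕ => p.Prime ∧ (p : ZMod q) = c) ∪
        (Ioc A B).filter (fun p : ℕ => p.Prime ∧ (p : ZMod q) = c) := by
    ext x
    simp only [mem_filter, mem_union, mem_Ioc, mem_Icc]
    constructor
    · rintro ⟨h, hp⟩
      by_cases hx : x ≤ A
      · exact Or.inl ⟨⟨h.1, hx⟩, hp⟩
      · exact Or.inr ⟨⟨by omega, by omega⟩, hp⟩
    · rintro (⟨h, hp⟩ | ⟨⟨h, h'⟩, hp⟩)
      · exact ⟨⟨h.1, by omega⟩, hp⟩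
      · exact ⟨⟨hp.1.one_lt.le, by omega⟩, hp⟩
  have h3 : Disjoint ((Icc 1 A).filter (fun p : ℕ => p.Prime ∧ (p : ZMod q) = c))
      ((Ioc A B).filter (fun p : ℕ => p.Prime ∧ (p : ZMod q) = c)) := by
    rw [Finset.disjoint_left]
    intro x hx hx'
    rw [mem_filter, mem_Icc] at hx
    rw [mem_filter, mem_Ioc] at hx'
    omega
  rw [h2, card_union_of_disjoint h3]
  push_cast
  ring

theorem ap_scaled {a : ℕ} (ha : 2 ≤ a) {q : ℕ} [NeZero q] {c : ZMod q} (hc : IsUnit c) {w : ℝ} (hw : 0 < w) :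
    Tendsto (fun n : ℕ => (((Icc 1 ⌊w * (a : ℝ) ^ n⌋₊).filter
      (fun p : ℕ => p.Prime ∧ (p : ZMod q) = c)).card : ℝ) * (n * Real.log a) / (a : ℝ) ^ n)
      atTop (nhds (w * (q.totient : ℝ)⁻¹)) := by
  have hX := tendsto_pow_real ha
  have hL := log_pos' ha
  have h1 := (Pool.Agent.Lib.PNT.pi_AP hc).comp (hX.const_mul_atTop hw)
  -- the ratio of the logarithms
  have h2 : Tendsto (fun n : ℕ => (n * Real.log a) / Real.log (w * (a : ℝ) ^ n)) atTop (nhds 1) := by
    have h3 : Tendsto (fun n : ℕ => Real.log w / (n * Real.log a) + 1) atTop (nhds (0 + 1)) := by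
      refine Tendsto.add ?_ tendsto_const_nhds
      exact tendsto_const_nhds.div_atTop
        ((tendsto_natCast_atTop_atTop (R := ℝ)).atTop_mul_const hL)
    rw [zero_add] at h3
    have h4 := h3.inv₀ one_ne_zero
    rw [inv_one] at h4
    refine h4.congr' ?_
    filter_upwards [eventually_ge_atTop 1] with n hn
    have hn0 : (0 : ℝ) < n := by exact_mod_cast hn
    rw [Real.log_mul hw.ne' (by positivity), Real.log_pow]
    have h5 : Real.log w / (n * Real.log a) + 1 = (Real.log w + n * Real.log a) / (n * Real.log a) := by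
      field_simp
    rw [h5, inv_div]
  have h3 := (h1.mul h2).const_mul w
  rw [mul_one] at h3
  refine h3.congr' ?_
  have h6 : ∀ᶠ n : ℕ in atTop, 1 < w * (a : ℝ) ^ n :=
    (hX.const_mul_atTop hw).eventually (eventually_gt_atTop 1)
  filter_upwards [h6] with n hn
  have h7 : Real.log (w * (a : ℝ) ^ n) ≠ 0 := (Real.log_pos hn).ne'
  have h8 : ((a : ℝ) ^ n) ≠ 0 := by
    have : (0 : ℝ) < a := by
      have : 0 < a := by omega
      exact_mod_cast this
    positivity
  simp only [Function.comp]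
  field_simp

theorem window_AP {a : ℕ} (ha : 2 ≤ a) {q : ℕ} [NeZero q] {u v : ℝ} (hu : 0 < u) (huv : u < v) :
    ∀ᶠ n : ℕ in atTop, ∀ c : ZMod q, IsUnit c →
      (v - u) / 2 * (q.totient : ℝ)⁻¹ * ((a : ℝ) ^ n / (n * Real.log a)) ≤
      (((Ioc ⌊u * (a : ℝ) ^ n⌋₊ ⌊v * (a : ℝ) ^ n⌋₊).filter
        (fun p : ℕ => p.Prime ∧ (p : ZMod q) = c)).card : ℝ) := by
  rw [eventually_all]
  intro c
  by_cases hc : IsUnit c
  swap
  · exact Eventually.of_forall fun n h => absurd h hc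
  have hφ : 0 < (q.totient : ℝ)⁻¹ := by
    have := Nat.totient_pos.mpr (NeZero.pos q)
    positivity
  have h1 := (ap_scaled ha hc (hu.trans huv)).sub (ap_scaled ha hc hu)
  have h2 := h1.eventually (lt_mem_nhds (show (v - u) / 2 * (q.totient : ℝ)⁻¹ <
    v * (q.totient : ℝ)⁻¹ - u * (q.totient : ℝ)⁻¹ by nlinarith))
  filter_upwards [h2, eventually_ge_atTop 1] with n hn hn1 _
  have hL := log_pos' ha
  have hn0 : (0 : ℝ) < n := by exact_mod_cast hn1
  have ha0 : (0 : ℝ) < a := by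
    have : 0 < a := by omega
    exact_mod_cast this
  have hX : (0 : ℝ) < (a : ℝ) ^ n := by positivity
  rw [card_AP_Ioc c (Nat.floor_mono (by gcongr))]
  rw [← sub_div, ← sub_mul, lt_div_iff₀ hX] at hn
  rw [← mul_div_assoc, div_le_iff₀ (by positivity)]
  exact hn.le

end Pool.Agent.DigM
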