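import Mathlib
import Pool.Agent.DigM.WinAP
import Pool.Agent.DigM.Pal
import Pool.Agent.DigM.Tot
import Pool.Agent.SWP.TwoForms

/-!
# DigM.VolK: the measure of the set of the `x` with at least `τ` primes `⌊x a^n⌋ + a^i + 1`

Restrict `M = ⌊x a^n⌋` to the class `M ≡ -1 (mod P)`, `P` coprime to `a` with `P/φ(P)` large: then `M + a^i + 1 = P t + a^i` is coprime to
`P`, the mean number of the primes is `≥ 2 τ`, the second moment is bounded by the sieve and by Romanoff's series.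
-/

namespace Pool.Agent.DigM

open Finset Filter MeasureTheory Pool.Agent.Lib.PrimePairs

theorem vol_of_card' {a : ℕ} (ha : 2 ≤ a) {u v : ℝ} {n : ℕ} (Good : ℕ → Prop) (H : Finset ℕ)
    (hH : ∀ M ∈ H, Good M ∧ u * (a : ℝ) ^ n ≤ M ∧ (M : ℝ) + 1 ≤ v * (a : ℝ) ^ n) :
    ENNReal.ofReal (H.card / (a : ℝ) ^ n) ≤
      volume ({x : ℝ | Good ⌊x * (a : ℝ) ^ n⌋₊} ∩ Set.Icc u v) := by
  have ha0 : (0 : ℝ) < a := by
    have : 0 < a := by omega
    exact_mod_cast this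
  set X : ℝ := (a : ℝ) ^ n with hX
  have hX0 : 0 < X := by positivity
  have hsub : (⋃ M ∈ H, Set.Ico ((M : ℝ) / X) (((M : ℝ) + 1) / X)) ⊆
      {x : ℝ | Good ⌊x * X⌋₊} ∩ Set.Icc u v := by
    intro x hx
    simp only [Set.mem_iUnion, Set.mem_Ico] at hx
    obtain ⟨M, hM, h1, h2⟩ := hx
    rw [div_le_iff₀ hX0] at h1
    rw [lt_div_iff₀ hX0] at h2
    obtain ⟨hg, h3, h4⟩ := hH M hM
    have hM0 : (0 : ℝ) ≤ M := Nat.cast_nonneg M
    have hfl : ⌊x * X⌋₊ = M := by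
      rw [Nat.floor_eq_iff (hM0.trans h1)]
      exact ⟨h1, h2⟩
    refine ⟨?_, ?_, ?_⟩
    · change Good ⌊x * X⌋₊
      rw [hfl]
      exact hg
    · exact le_of_mul_le_mul_right (h3.trans h1) hX0
    · exact le_of_mul_le_mul_right (h2.le.trans h4) hX0
  refine le_trans ?_ (measure_mono hsub)
  rw [measure_biUnion_finset]
  · have h5 : ∀ M ∈ H, volume (Set.Ico ((M : ℝ) / X) (((M : ℝ) + 1) / X)) = ENNReal.ofReal (1 / X) := by
      intro M _
      rw [Real.volume_Ico]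
      congr 1
      ring
    rw [Finset.sum_congr rfl h5, Finset.sum_const, nsmul_eq_mul, ← ENNReal.ofReal_natCast,
      ← ENNReal.ofReal_mul (Nat.cast_nonneg _)]
    exact ENNReal.ofReal_le_ofReal (le_of_eq (by ring))
  · intro M _ M' _ hne
    rw [Function.onFun, Set.disjoint_left]
    intro x hx hx'
    rw [Set.mem_Ico, div_le_iff₀ hX0, lt_div_iff₀ hX0] at hx hx'
    have e1 : (M : ℝ) < (M' : ℝ) + 1 := hx.1.trans_lt hx'.2
    have e2 : (M' : ℝ) < (M : ℝ) + 1 := hx'.1.trans_lt hx.2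
    have e3 : M < M' + 1 := by exact_mod_cast e1
    have e4 : M' < M + 1 := by exact_mod_cast e2
    omega
  · intro M _
    exact measurableSet_Ico

open Classical in
/-- The number of the primes `M + a^i + 1`, `0 < i < n`, `θ n < i < η n`. -/
noncomputable def cnt (a : ℕ) (θ η : ℝ) (n M : ℕ) : ℕ :=
  ((Finset.Ioo 0 n).filter fun i : ℕ => θ * n < i ∧ (i : ℝ) < η * n ∧ (M + a ^ i + 1).Prime).card

/-- The `x` with at least `τ` primes. -/
def GT (a : ℕ) (θ η : ℝ) (τ n : ℕ) : Set ℝ := {x : ℝ | τ ≤ cnt a θ η n ⌊x * (a : ℝ) ^ n⌋₊}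

theorem GT_meas (a : ℕ) (θ η : ℝ) (τ n : ℕ) : MeasurableSet (GT a θ η τ n) := by
  have h : GT a θ η τ n = (fun x : ℝ => ⌊x * (a : ℝ) ^ n⌋₊) ⁻¹' {M : ℕ | τ ≤ cnt a θ η n M} := rfl
  rw [h]
  exact (Nat.measurable_floor.comp (measurable_id.mul_const _)) (MeasurableSet.of_discrete)

theorem single_AP (a P i T0 N A B : ℕ) (hP : 0 < P) (h1 : P * T0 + a ^ i ≤ A) (h2 : B < P * (T0 + N + 1)) :
    (((Ioc A B).filter (fun p : ℕ => p.Prime ∧ (p : ZMod P) = ((a ^ i : ℕ) : ZMod P))).card : ℝ) ≤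
      (((Ioc T0 (T0 + N)).filter fun t => (P * t + a ^ i).Prime).card : ℝ) := by
  have h : ((Ioc A B).filter (fun p : ℕ => p.Prime ∧ (p : ZMod P) = ((a ^ i : ℕ) : ZMod P))).card ≤
      ((Ioc T0 (T0 + N)).filter fun t => (P * t + a ^ i).Prime).card := by
    have key : ∀ p ∈ (Ioc A B).filter (fun p : ℕ => p.Prime ∧ (p : ZMod P) = ((a ^ i : ℕ) : ZMod P)),
        P * ((p - a ^ i) / P) + a ^ i = p := by
      intro p hp
      rw [Finset.mem_filter, Finset.mem_Ioc] at hp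
      have e1 : a ^ i ≤ p := by omega
      have e2 : a ^ i ≡ p [MOD P] := ((ZMod.natCast_eq_natCast_iff p (a ^ i) P).1 hp.2.2).symm
      have e3 : P ∣ p - a ^ i := (Nat.modEq_iff_dvd' e1).1 e2
      rw [Nat.mul_div_cancel' e3]
      omega
    refine Finset.card_le_card_of_injOn (fun p => (p - a ^ i) / P) ?_ ?_
    · intro p hp
      rw [Finset.mem_coe] at hp
      have hk := key p hp
      rw [Finset.mem_filter, Finset.mem_Ioc] at hp
      change (p - a ^ i) / P ∈ _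
      rw [Finset.mem_coe, Finset.mem_filter, Finset.mem_Ioc]
      set t := (p - a ^ i) / P with ht
      refine ⟨⟨?_, ?_⟩, ?_⟩
      · have : P * T0 < P * t := by omega
        exact lt_of_mul_lt_mul_left this (Nat.zero_le _)
      · have : P * t < P * (T0 + N + 1) := by omega
        exact Nat.lt_succ_iff.1 (lt_of_mul_lt_mul_left this (Nat.zero_le _))
      · rw [hk]
        exact hp.2.1
    · intro x hx z hz hxz
      rw [Finset.mem_coe] at hx hz
      have e1 := key x hx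
      have e2 := key z hz
      simp only at hxz
      rw [hxz] at e1
      exact e1.symm.trans e2
  exact_mod_cast h

theorem pair_AP {a P i j T0 N y : ℕ} (ha : 2 ≤ a) (hP : 0 < P) (hij : i < j) (hy : 2 ≤ y) (hyT : y ^ 2 ≤ T0) :
    (((Ioc T0 (T0 + N)).filter fun t => (P * t + a ^ i).Prime ∧ (P * t + a ^ j).Prime).card : ℝ) ≤
      8 * (F (P ^ 3) * F (2 * (a ^ j - a ^ i))) ^ 2 * N / Real.log y ^ 2 + (y : ℝ) ^ 12 := by
  have hlt : a ^ i < a ^ j := Nat.pow_lt_pow_right (by omega) hij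
  have hne : P * a ^ j ≠ P * a ^ i := fun h => hlt.ne' (Nat.eq_of_mul_eq_mul_left hP h)
  have h1 := Pool.SWP.two_forms_le P (a ^ i) P (a ^ j) T0 N y hP hP hne hy hyT
  refine h1.trans (add_le_add_left ?_ _)
  have h2 : Nat.dist (P * a ^ j) (P * a ^ i) = P * (a ^ j - a ^ i) := by
    rw [Nat.dist_mul_left, Nat.dist_eq_sub_of_le_right hlt.le]
  have h3 : 2 * P * P * Nat.dist (P * a ^ j) (P * a ^ i) = P ^ 3 * (2 * (a ^ j - a ^ i)) := by
    rw [h2]
    ring
  have h4 : F (2 * P * P * Nat.dist (P * a ^ j) (P * a ^ i)) ≤ F (P ^ 3) * F (2 * (a ^ j - a ^ i)) := by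
    rw [h3]
    exact Pool.Agent.LeX.F_mul_le _ _
  have h5 := F_nonneg (2 * P * P * Nat.dist (P * a ^ j) (P * a ^ i))
  gcongr

theorem vol_geK {a : ℕ} (ha : 2 ≤ a) {θ η : ℝ} (hθ : 0 ≤ θ) (hθη : θ < η) (hη : η ≤ 1) (τ : ℕ) : ∃ c : ℝ, 0 < c ∧
    ∀ u v : ℝ, 0 < u → u < v → ∀ᶠ n : ℕ in atTop,
      ENNReal.ofReal (c * (v - u)) ≤ volume (GT a θ η τ n ∩ Set.Icc u v) := by
  classical
  obtain ⟨C, hC, hsum⟩ := sum_diff a ha
  have hL := log_pos' ha
  set L : ℝ := Real.log a with hLdef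
  have ha0 : (0 : ℝ) < a := by
    have : 0 < a := by omega
    exact_mod_cast this
  have ha1 : (1 : ℝ) ≤ a := by
    have : 1 ≤ a := by omega
    exact_mod_cast this
  set κ : ℝ := min ((η - θ) / 2) (1 / 4) with hκ
  have hκ0 : 0 < κ := lt_min (by linarith) (by norm_num)
  have hκε : κ ≤ (η - θ) / 2 := min_le_left _ _
  have hκ4 : κ ≤ 1 / 4 := min_le_right _ _
  set lam : ℝ := max (1 / 2) (θ + κ) with hlam
  have hlam1 : lam < 1 := max_lt (by norm_num) (by linarith)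
  have hlam2 : 1 / 2 ≤ lam := le_max_left _ _
  have hlam3 : θ + κ ≤ lam := le_max_right _ _
  set b : ℝ := (a : ℝ) ^ (1 - lam) with hb
  have hb1 : 1 < b := Real.one_lt_rpow (by
    have : 1 < a := by omega
    exact_mod_cast this) (by linarith)
  have hb0 : 0 < b := by linarith
  have hab : ∀ n : ℕ, (a : ℝ) ^ ⌊lam * n⌋₊ * b ^ n ≤ (a : ℝ) ^ n := by
    intro n
    have e1 : ((⌊lam * n⌋₊ : ℕ) : ℝ) ≤ lam * n := Nat.floor_le (by positivity)
    rw [hb, ← Real.rpow_natCast, ← Real.rpow_natCast, ← Real.rpow_natCast, ← Real.rpow_mul ha0.le,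
      ← Real.rpow_add ha0]
    refine Real.rpow_le_rpow_of_exponent_le ha1 ?_
    nlinarith
  have hbt : Tendsto (fun n : ℕ => b ^ n) atTop atTop := tendsto_pow_atTop_atTop_of_one_lt hb1
  obtain ⟨P, hP, hPa, hPT⟩ := exists_mod a ha (16 * τ * L / κ)
  have : NeZero P := ⟨hP.ne'⟩
  have hP0 : (0 : ℝ) < P := by exact_mod_cast hP
  have hP1 : (1 : ℝ) ≤ P := by exact_mod_cast hP
  set φ : ℝ := (P.totient : ℝ) with hφ
  have hφ0 : 0 < φ := by
    have := Nat.totient_pos.mpr hP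
    rw [hφ]
    exact_mod_cast this
  set α : ℝ := κ / (8 * φ * L) with hα
  have hα0 : 0 < α := by positivity
  set FP : ℝ := F (P ^ 3) with hFP
  have hFP0 : 0 ≤ FP := F_nonneg _
  set K : ℝ := 16 * 48 ^ 2 * FP ^ 2 * C * κ ^ 2 / (L ^ 2 * P) + 1 with hK
  have hK0 : 0 < K := by positivity
  refine ⟨α ^ 2 / (4 * (α + K)), by positivity, fun u v hu huv => ?_⟩
  have hX := tendsto_pow_real ha
  have hd : 0 < v - u := by linarith
  -- the middle
  set u' : ℝ := (u + v) / 2 with hu'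
  have hu'0 : 0 < u' := by rw [hu']; linarith
  have hu'v : u' < v := by rw [hu']; linarith
  have hwin := window_AP (a := a) ha (q := P) hu'0 hu'v
  -- sizes
  have hbig1 : ∀ᶠ n : ℕ in atTop, (a : ℝ) ^ ⌊lam * n⌋₊ + (2 * P + 4) ≤ (v - u) / 2 * (a : ℝ) ^ n := by
    have h1 : Tendsto (fun n : ℕ => (v - u) / 2 * b ^ n) atTop atTop :=
      Tendsto.const_mul_atTop (by linarith) hbt
    filter_upwards [h1.eventually (eventually_ge_atTop (2 * P + 5 : ℝ))] with n hn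
    have h2 : (1 : ℝ) ≤ (a : ℝ) ^ ⌊lam * n⌋₊ := one_le_pow₀ ha1
    have h3 := hab n
    have h4 : (2 * P + 4 : ℝ) * 1 ≤ (2 * P + 4) * (a : ℝ) ^ ⌊lam * n⌋₊ := by gcongr
    calc (a : ℝ) ^ ⌊lam * n⌋₊ + (2 * P + 4) ≤ (2 * P + 5) * (a : ℝ) ^ ⌊lam * n⌋₊ := by linarith
      _ ≤ ((v - u) / 2 * b ^ n) * (a : ℝ) ^ ⌊lam * n⌋₊ := by gcongr
      _ = (v - u) / 2 * ((a : ℝ) ^ ⌊lam * n⌋₊ * b ^ n) := by ring
      _ ≤ (v - u) / 2 * (a : ℝ) ^ n := by gcongr
  have hbig2 : ∀ᶠ n : ℕ in atTop, 2 * (n : ℝ) ^ 2 * (a : ℝ) ^ ⌊lam * n⌋₊ ≤ (v - u) * (a : ℝ) ^ n := by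
    have h1 : Tendsto (fun n : ℕ => (n : ℝ) ^ 2 / b ^ n) atTop (nhds 0) :=
      tendsto_pow_const_div_const_pow_of_one_lt 2 hb1
    have h6 : 0 < (v - u) / 2 := by positivity
    filter_upwards [h1.eventually (gt_mem_nhds h6)] with n hn
    have h7 : (0 : ℝ) < b ^ n := by positivity
    rw [div_lt_div_iff₀ h7 (by norm_num)] at hn
    have h3 := hab n
    calc 2 * (n : ℝ) ^ 2 * (a : ℝ) ^ ⌊lam * n⌋₊ = ((n : ℝ) ^ 2 * 2) * (a : ℝ) ^ ⌊lam * n⌋₊ := by ring
      _ ≤ ((v - u) * b ^ n) * (a : ℝ) ^ ⌊lam * n⌋₊ := by gcongr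
      _ = (v - u) * ((a : ℝ) ^ ⌊lam * n⌋₊ * b ^ n) := by ring
      _ ≤ (v - u) * (a : ℝ) ^ n := by gcongr
  have hbig3 : ∀ᶠ n : ℕ in atTop, P * (a : ℝ) ^ (n / 2) ≤ u * (a : ℝ) ^ n := by
    have h1 : Tendsto (fun n : ℕ => u * (a : ℝ) ^ (n / 2)) atTop atTop := by
      refine Tendsto.const_mul_atTop hu ?_
      exact hX.comp (Nat.tendsto_div_const_atTop (by norm_num))
    filter_upwards [h1.eventually (eventually_ge_atTop (P : ℝ))] with n hn
    have h3 : (a : ℝ) ^ (n / 2) * (a : ℝ) ^ (n / 2) ≤ (a : ℝ) ^ n := by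
      rw [← pow_add]
      exact pow_le_pow_right₀ ha1 (by omega)
    calc P * (a : ℝ) ^ (n / 2) ≤ (u * (a : ℝ) ^ (n / 2)) * (a : ℝ) ^ (n / 2) := by gcongr
      _ = u * ((a : ℝ) ^ (n / 2) * (a : ℝ) ^ (n / 2)) := by ring
      _ ≤ u * (a : ℝ) ^ n := by gcongr
  have hbig4 : ∀ᶠ n : ℕ in atTop, 2 / κ ≤ (n : ℝ) :=
    (tendsto_natCast_atTop_atTop (R := ℝ)).eventually (eventually_ge_atTop _)
  filter_upwards [hwin, hbig1, hbig2, hbig3, hbig4, eventually_ge_atTop 48] with n h1 h2 h3 h4 h5 h48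
  set X : ℝ := (a : ℝ) ^ n with hXdef
  have hX0 : 0 < X := by positivity
  have hn0 : (0 : ℝ) < n := by
    have : 0 < n := by omega
    exact_mod_cast this
  set m : ℕ := ⌊κ * n⌋₊ with hm
  have hmle : (m : ℝ) ≤ κ * n := Nat.floor_le (by positivity)
  have hmge : κ * n / 2 ≤ m := by
    have e1 : κ * n < m + 1 := Nat.lt_floor_add_one _
    have e2 : 2 ≤ κ * n := by
      rw [div_le_iff₀ hκ0] at h5
      linarith
    linarith
  have hm2 : 2 ≤ m := by
    refine Nat.le_floor ?_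
    rw [div_le_iff₀ hκ0] at h5
    push_cast
    linarith
  have hmn : 4 * m ≤ n := by
    have e1 : (m : ℝ) ≤ n / 4 := by nlinarith
    have e2 : (4 * m : ℝ) ≤ n := by linarith
    exact_mod_cast e2
  set s : ℕ := ⌊θ * n⌋₊ with hs
  set e : ℕ := ⌊lam * n⌋₊ with he
  have hsle : (s : ℝ) ≤ θ * n := Nat.floor_le (by positivity)
  have hslt : θ * n < (s : ℝ) + 1 := Nat.lt_floor_add_one _
  have hsm : s + m ≤ e := by
    refine Nat.le_floor ?_
    push_cast
    have : (θ + κ) * n ≤ lam * n := mul_le_mul_of_nonneg_right hlam3 hn0.le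
    linarith
  have hne : n / 2 ≤ e := by
    refine Nat.le_floor ?_
    have e1 : ((n / 2 : ℕ) : ℝ) ≤ n / 2 := by
      have : 2 * (n / 2) ≤ n := by omega
      have e2 : (2 : ℝ) * ((n / 2 : ℕ) : ℝ) ≤ n := by exact_mod_cast this
      linarith
    have : 1 / 2 * (n : ℝ) ≤ lam * n := mul_le_mul_of_nonneg_right hlam2 hn0.le
    linarith
  have hen : e < n := by
    have e1 : (e : ℝ) < n := by
      have e2 : (e : ℝ) ≤ lam * n := Nat.floor_le (by positivity)
      have e3 : lam * n < 1 * n := mul_lt_mul_of_pos_right hlam1 hn0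
      linarith
    exact_mod_cast e1
  set Y : ℝ := (v - u) * X with hY
  have hY0 : 0 < Y := by positivity
  set T0 : ℕ := ⌈(u * X + 1) / P⌉₊ with hT0
  set T1 : ℕ := ⌊v * X / P⌋₊ with hT1
  have hT0ge : u * X + 1 ≤ P * T0 := by
    have := Nat.le_ceil ((u * X + 1) / P)
    rw [div_le_iff₀ hP0] at this
    linarith
  have hT0lt : P * (T0 : ℝ) < u * X + 1 + P := by
    have := Nat.ceil_lt_add_one (show 0 ≤ (u * X + 1) / P by positivity)
    rw [← hT0] at this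
    have e1 : P * ((u * X + 1) / P + 1) = u * X + 1 + P := by
      field_simp
    calc P * (T0 : ℝ) < P * ((u * X + 1) / P + 1) := by gcongr
      _ = _ := e1
  have hv0 : 0 < v := hu.trans huv
  have hT1le : P * (T1 : ℝ) ≤ v * X := by
    have := Nat.floor_le (show 0 ≤ v * X / P by positivity)
    rw [← hT1, le_div_iff₀ hP0] at this
    linarith
  have hT1gt : v * X < P * (T1 : ℝ) + P := by
    have := Nat.lt_floor_add_one (v * X / P)
    rw [← hT1, div_lt_iff₀ hP0] at this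
    linarith
  have hvu : v * X = u * X + Y := by rw [hY]; ring
  have h2' : (a : ℝ) ^ e + (2 * P + 4) ≤ Y / 2 := by
    have : Y / 2 = (v - u) / 2 * X := by rw [hY]; ring
    rw [this]
    exact h2
  have hapos : (0 : ℝ) < (a : ℝ) ^ (n / 2) := by positivity
  have hapos' : (0 : ℝ) < (a : ℝ) ^ e := by positivity
  have hae : (a : ℝ) ^ (n / 2) ≤ (a : ℝ) ^ e := pow_le_pow_right₀ ha1 hne
  have hT01 : T0 ≤ T1 := by
    have e1 : P * (T0 : ℝ) ≤ P * T1 := by linarith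
    have e2 : (T0 : ℝ) ≤ T1 := le_of_mul_le_mul_left e1 hP0
    exact_mod_cast e2
  obtain ⟨N, hN⟩ : ∃ N, T1 = T0 + N := ⟨T1 - T0, by omega⟩
  have hNle : (N : ℝ) ≤ Y / P := by
    rw [le_div_iff₀ hP0]
    have e1 : (T1 : ℝ) = T0 + N := by rw [hN]; push_cast; ring
    rw [e1] at hT1le
    nlinarith
  -- the primes
  have hsingle : ∀ i ∈ Icc 1 m, (v - u) / 4 * φ⁻¹ * (X / (n * L)) ≤
      (((Ioc T0 (T0 + N)).filter fun t => (P * t + a ^ (s + i)).Prime).card : ℝ) := by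
    intro i hi
    rw [Finset.mem_Icc] at hi
    have hai : (a : ℝ) ^ (s + i) ≤ (a : ℝ) ^ e := pow_le_pow_right₀ ha1 (by omega)
    refine le_trans ?_ (single_AP a P (s + i) T0 N ⌊u' * X⌋₊ ⌊v * X⌋₊ hP ?_ ?_)
    · have hunit : IsUnit ((a ^ (s + i) : ℕ) : ZMod P) :=
        (ZMod.isUnit_iff_coprime (a ^ (s + i)) P).2 (Nat.Coprime.pow_left (s + i) hPa.symm)
      refine le_trans (le_of_eq ?_) (h1 _ hunit)
      have e1 : (v - u') / 2 = (v - u) / 4 := by rw [hu']; ring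
      rw [e1]
    · refine Nat.le_floor ?_
      push_cast
      have e3 : u' * X = u * X + Y / 2 := by rw [hu', hY]; ring
      rw [e3]
      linarith
    · have e4 : ((⌊v * X⌋₊ : ℕ) : ℝ) < ((P * (T0 + N + 1) : ℕ) : ℝ) := by
        have e5 : (T1 : ℝ) = T0 + N := by rw [hN]; push_cast; ring
        rw [e5] at hT1gt
        push_cast
        refine lt_of_le_of_lt (Nat.floor_le (by positivity)) ?_
        linarith
      exact_mod_cast e4
  -- the pairs
  have hy : (2 : ℕ) ≤ a ^ (n / 24) := by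
    calc 2 ≤ a := ha
      _ = a ^ 1 := (pow_one a).symm
      _ ≤ a ^ (n / 24) := Nat.pow_le_pow_right (by omega) (by omega)
  have hyT : (a ^ (n / 24)) ^ 2 ≤ T0 := by
    have e1 : (((a ^ (n / 24)) ^ 2 : ℕ) : ℝ) ≤ T0 := by
      push_cast
      rw [← pow_mul]
      refine le_of_mul_le_mul_left ?_ hP0
      calc P * (a : ℝ) ^ (n / 24 * 2) ≤ P * (a : ℝ) ^ (n / 2) :=
            mul_le_mul_of_nonneg_left (pow_le_pow_right₀ ha1 (by omega)) hP0.le
        _ ≤ u * X := h4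
        _ ≤ P * T0 := by linarith
    exact_mod_cast e1
  have hlogy : n * L / 48 ≤ Real.log ((a ^ (n / 24) : ℕ) : ℝ) := by
    push_cast
    rw [Real.log_pow]
    have e1 : (n : ℝ) / 48 ≤ ((n / 24 : ℕ) : ℝ) := by
      have : n ≤ 48 * (n / 24) := by omega
      have e2 : (n : ℝ) ≤ 48 * ((n / 24 : ℕ) : ℝ) := by exact_mod_cast this
      linarith
    calc n * L / 48 = (n : ℝ) / 48 * L := by ring
      _ ≤ ((n / 24 : ℕ) : ℝ) * L := by gcongr
  have hpair : ∀ w ∈ ((Icc 1 m) ×ˢ (Icc 1 m)).filter (fun w => w.1 < w.2),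
      (((Ioc T0 (T0 + N)).filter fun t => (P * t + a ^ (s + w.1)).Prime ∧ (P * t + a ^ (s + w.2)).Prime).card : ℝ) ≤
        8 * 48 ^ 2 * FP ^ 2 * (Y / P) / (n * L) ^ 2 * F (2 * (a ^ (s + w.2) - a ^ (s + w.1))) ^ 2 + (a : ℝ) ^ (n / 2) := by
    intro w hw
    rw [Finset.mem_filter] at hw
    refine (pair_AP ha hP (show s + w.1 < s + w.2 by omega) hy hyT).trans ?_
    rw [← hFP]
    refine add_le_add ?_ ?_
    · have e1 : 0 < n * L / 48 := by positivity
      calc 8 * (FP * F (2 * (a ^ (s + w.2) - a ^ (s + w.1)))) ^ 2 * N / Real.log ((a ^ (n / 24) : ℕ) : ℝ) ^ 2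
          ≤ 8 * (FP * F (2 * (a ^ (s + w.2) - a ^ (s + w.1)))) ^ 2 * (Y / P) / (n * L / 48) ^ 2 := by gcongr
        _ = _ := by
            field_simp
    · push_cast
      rw [← pow_mul]
      exact pow_le_pow_right₀ ha1 (by omega)
  have hpairs : 2 * ∑ w ∈ ((Icc 1 m) ×ˢ (Icc 1 m)).filter (fun w => w.1 < w.2),
      (((Ioc T0 (T0 + N)).filter fun t => (P * t + a ^ (s + w.1)).Prime ∧ (P * t + a ^ (s + w.2)).Prime).card : ℝ) ≤
        K * Y := by
    have e0 : ∑ w ∈ ((Icc 1 m) ×ˢ (Icc 1 m)).filter (fun w => w.1 < w.2),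
      (((Ioc T0 (T0 + N)).filter fun t => (P * t + a ^ (s + w.1)).Prime ∧ (P * t + a ^ (s + w.2)).Prime).card : ℝ) ≤
        8 * 48 ^ 2 * FP ^ 2 * (Y / P) / (n * L) ^ 2 * (C * (m : ℝ) ^ 2) + (m : ℝ) ^ 2 * (a : ℝ) ^ (n / 2) := by
      refine (Finset.sum_le_sum hpair).trans ?_
      rw [Finset.sum_add_distrib, ← Finset.mul_sum, Finset.sum_const, nsmul_eq_mul]
      have e1 : ((((Icc 1 m) ×ˢ (Icc 1 m)).filter (fun w => w.1 < w.2)).card : ℝ) ≤ (m : ℝ) ^ 2 := by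
        have h5 : (((Icc 1 m) ×ˢ (Icc 1 m)).filter (fun u => u.1 < u.2)).card ≤ m * m := by
          refine (Finset.card_filter_le _ _).trans ?_
          rw [Finset.card_product, Nat.card_Icc, Nat.add_sub_cancel]
        rw [sq]
        exact_mod_cast h5
      have e2 := hsum s m hm2
      have e3 : 0 ≤ 8 * 48 ^ 2 * FP ^ 2 * (Y / P) / (n * L) ^ 2 := by positivity
      exact add_le_add (mul_le_mul_of_nonneg_left e2 e3) (mul_le_mul_of_nonneg_right e1 hapos.le)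
    have e4 : 8 * 48 ^ 2 * FP ^ 2 * (Y / P) / (n * L) ^ 2 * (C * (m : ℝ) ^ 2) ≤
        8 * 48 ^ 2 * FP ^ 2 * C * κ ^ 2 / (L ^ 2 * P) * Y := by
      have e5 : (m : ℝ) ^ 2 ≤ (κ * n) ^ 2 := pow_le_pow_left₀ (Nat.cast_nonneg _) hmle 2
      have e3 : 0 ≤ 8 * 48 ^ 2 * FP ^ 2 * (Y / P) / (n * L) ^ 2 := by positivity
      calc 8 * 48 ^ 2 * FP ^ 2 * (Y / P) / (n * L) ^ 2 * (C * (m : ℝ) ^ 2)
          ≤ 8 * 48 ^ 2 * FP ^ 2 * (Y / P) / (n * L) ^ 2 * (C * (κ * n) ^ 2) :=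
            mul_le_mul_of_nonneg_left (mul_le_mul_of_nonneg_left e5 hC.le) e3
        _ = _ := by
            field_simp
    have e6 : 2 * ((m : ℝ) ^ 2 * (a : ℝ) ^ (n / 2)) ≤ Y := by
      have e7 : (m : ℝ) ^ 2 ≤ (n : ℝ) ^ 2 := by
        have : m ≤ n := by omega
        exact pow_le_pow_left₀ (Nat.cast_nonneg _) (by exact_mod_cast this) 2
      calc 2 * ((m : ℝ) ^ 2 * (a : ℝ) ^ (n / 2)) ≤ 2 * ((n : ℝ) ^ 2 * (a : ℝ) ^ (n / 2)) :=
            mul_le_mul_of_nonneg_left (mul_le_mul_of_nonneg_right e7 hapos.le) zero_le_two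
        _ = 2 * (n : ℝ) ^ 2 * (a : ℝ) ^ (n / 2) := by ring
        _ ≤ 2 * (n : ℝ) ^ 2 * (a : ℝ) ^ e := mul_le_mul_of_nonneg_left hae (by positivity)
        _ ≤ Y := h3
    have e8 : K * Y = 2 * (8 * 48 ^ 2 * FP ^ 2 * C * κ ^ 2 / (L ^ 2 * P) * Y) + Y := by
      rw [hK]
      ring
    rw [e8]
    linarith
  have hS : α * Y ≤ ∑ i ∈ Icc 1 m, (((Ioc T0 (T0 + N)).filter fun t => (P * t + a ^ (s + i)).Prime).card : ℝ) := by
    have e1 : (m : ℝ) * ((v - u) / 4 * φ⁻¹ * (X / (n * L))) ≤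
        ∑ i ∈ Icc 1 m, (((Ioc T0 (T0 + N)).filter fun t => (P * t + a ^ (s + i)).Prime).card : ℝ) := by
      refine le_trans (le_of_eq ?_) (Finset.sum_le_sum hsingle)
      rw [Finset.sum_const, Nat.card_Icc, Nat.add_sub_cancel, nsmul_eq_mul]
    refine le_trans ?_ e1
    have e2 : α * Y = κ * n / 2 * ((v - u) / 4 * φ⁻¹ * (X / (n * L))) := by
      rw [hα, hY]
      field_simp
      ring
    rw [e2]
    exact mul_le_mul_of_nonneg_right hmge (by positivity)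
  have hWcard : ((Ioc T0 (T0 + N)).card : ℝ) = N := by
    rw [Nat.card_Ioc, Nat.add_sub_cancel_left]
  have hτ : 2 * τ * ((Ioc T0 (T0 + N)).card : ℝ) ≤ α * Y := by
    rw [hWcard]
    have e1 : 2 * (τ : ℝ) * N ≤ 2 * τ * (Y / P) := mul_le_mul_of_nonneg_left hNle (by positivity)
    refine e1.trans ?_
    have e2 : 16 * τ * L / κ * φ ≤ P := by
      rwa [le_div_iff₀ hφ0] at hPT
    have e3 : 16 * τ * L * φ ≤ P * κ := by
      have e4 : 16 * τ * L / κ * φ = 16 * τ * L * φ / κ := by ring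
      rw [e4, div_le_iff₀ hκ0] at e2
      exact e2
    have e5 : 2 * τ * (Y / P) = (16 * τ * L * φ) * (Y / (8 * φ * L * P)) := by
      field_simp
      ring
    have e6 : α * Y = (P * κ) * (Y / (8 * φ * L * P)) := by
      rw [hα]
      field_simp
    rw [e5, e6]
    exact mul_le_mul_of_nonneg_right e3 (by positivity)
  have hpal := paley (Ioc T0 (T0 + N)) (Icc 1 m) (fun i t => (P * t + a ^ (s + i)).Prime) τ hS (by positivity) hpairs hτ
  set H0 := (Ioc T0 (T0 + N)).filter fun t => τ ≤ ((Icc 1 m).filter fun i => (P * t + a ^ (s + i)).Prime).card with hH0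
  -- the image
  have hinj : Set.InjOn (fun t => P * t - 1) (H0 : Set ℕ) := by
    intro t ht t' ht' htt
    rw [Finset.mem_coe, hH0, Finset.mem_filter, Finset.mem_Ioc] at ht ht'
    simp only at htt
    have e1 : 0 < P * t := Nat.mul_pos hP (by omega)
    have e2 : 0 < P * t' := Nat.mul_pos hP (by omega)
    exact Nat.eq_of_mul_eq_mul_left hP (by omega)
  have hcard : ((H0.image fun t => P * t - 1).card : ℝ) = H0.card := by
    rw [Finset.card_image_of_injOn hinj]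
  refine le_trans (ENNReal.ofReal_le_ofReal ?_)
    (vol_of_card' ha (u := u) (v := v) (n := n) (fun M => τ ≤ cnt a θ η n M) (H0.image fun t => P * t - 1) ?_)
  · rw [hcard, le_div_iff₀ hX0]
    refine le_trans (le_of_eq ?_) hpal
    have e1 : α ^ 2 / (4 * (α + K)) * (v - u) * X = α ^ 2 / (4 * (α + K)) * Y := by rw [hY]; ring
    rw [e1]
    field_simp
  · intro M hM
    rw [Finset.mem_image] at hM
    obtain ⟨t, ht, rfl⟩ := hM
    rw [hH0, Finset.mem_filter, Finset.mem_Ioc] at ht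
    obtain ⟨⟨ht0, ht1⟩, htc⟩ := ht
    have hPt : 0 < P * t := Nat.mul_pos hP (by omega)
    have hMc : ((P * t - 1 : ℕ) : ℝ) = P * t - 1 := by
      rw [Nat.cast_sub hPt]
      push_cast
      ring
    refine ⟨?_, ?_, ?_⟩
    · refine htc.trans ?_
      unfold cnt
      refine Finset.card_le_card_of_injOn (fun i => s + i) ?_ ?_
      · intro i hi
        rw [Finset.mem_coe, Finset.mem_filter, Finset.mem_Icc] at hi
        change s + i ∈ _
        rw [Finset.mem_coe, Finset.mem_filter, Finset.mem_Ioo]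
        refine ⟨⟨by omega, by omega⟩, ?_, ?_, ?_⟩
        · have e1 : (1 : ℝ) ≤ i := by exact_mod_cast hi.1.1
          push_cast
          linarith
        · have e1 : (i : ℝ) ≤ m := by exact_mod_cast hi.1.2
          have e2 : (θ + κ) * n < η * n := mul_lt_mul_of_pos_right (by linarith) hn0
          push_cast
          linarith
        · have e3 : P * t - 1 + a ^ (s + i) + 1 = P * t + a ^ (s + i) := by omega
          rw [e3]
          exact hi.2
      · intro i _ j _ hij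
        simp only at hij
        omega
    · rw [hMc]
      have e1 : (T0 : ℝ) ≤ t := by exact_mod_cast ht0.le
      have e2 : P * (T0 : ℝ) ≤ P * t := mul_le_mul_of_nonneg_left e1 hP0.le
      linarith
    · rw [hMc]
      have e1 : (t : ℝ) ≤ T1 := by
        rw [hN]
        exact_mod_cast ht1
      have e2 : P * (t : ℝ) ≤ P * T1 := mul_le_mul_of_nonneg_left e1 hP0.le
      linarith

end Pool.Agent.DigM
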