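import Mathlib
import Pool.Agent.DigM.VolK
import Pool.Agent.SMD.DenL

/-!
# DigM.MainK: for almost every `x`, the `n` with at least `τ` primes `⌊x a^n⌋ + a^i + 1`, `θ n < i < η n`, have positive upper density
-/

namespace Pool.Agent.DigM

open Finset Filter MeasureTheory

open Classical in
theorem mainK (a : ℕ) (ha : 2 ≤ a) (θ η : ℝ) (hθ : 0 ≤ θ) (hθη : θ < η) (hη : η ≤ 1) (τ : ℕ) :
    ∃ δ : ℝ, 0 < δ ∧ ∀ᵐ x : ℝ, 0 < x →
    ∃ᶠ N : ℕ in atTop, δ * N ≤ (((range N).filter fun n : ℕ =>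
      τ ≤ ((Ioo 0 n).filter fun i : ℕ => θ * n < i ∧ (i : ℝ) < η * n ∧
        (⌊x * (a : ℝ) ^ n⌋₊ + a ^ i + 1).Prime).card).card : ℝ) := by
  obtain ⟨c, hc, hvol⟩ := vol_geK ha hθ hθη hη τ
  refine ⟨2 * c / 8, by positivity, ?_⟩
  have h : ∀ k : ℕ, ∀ᵐ x : ℝ, 1 / ((k : ℝ) + 1) ≤ x → x ≤ (k : ℝ) + 1 → ∃ᶠ N : ℕ in atTop,
      2 * c / 8 * N ≤ (((range N).filter fun n => x ∈ GT a θ η τ n).card : ℝ) := by
    intro k
    have hk : (0 : ℝ) < 1 / ((k : ℝ) + 1) := by positivity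
    refine SMD.dens_ae (G := GT a θ η τ) (GT_meas a θ η τ) (c := 2 * c) (ρ0 := 1 / ((k : ℝ) + 1) / 2)
      (by positivity) (by positivity) ?_
    intro μ ρ hμ _ hρ hρ0
    have h1 := hvol (μ - ρ) (μ + ρ) (by linarith) (by linarith)
    filter_upwards [h1] with n hn
    rw [Real.closedBall_eq_Icc]
    refine le_trans (ENNReal.ofReal_le_ofReal (le_of_eq (by ring))) hn
  rw [← ae_all_iff] at h
  filter_upwards [h] with x hx hx0
  obtain ⟨k, hk⟩ := exists_nat_ge (max x (1 / x))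
  have h1 : x ≤ (k : ℝ) + 1 := (le_max_left _ _).trans (hk.trans (by linarith))
  have h2 : 1 / ((k : ℝ) + 1) ≤ x := by
    have h3 : 1 / x ≤ (k : ℝ) + 1 := (le_max_right _ _).trans (hk.trans (by linarith))
    rw [div_le_iff₀ hx0] at h3
    rw [div_le_iff₀ (by positivity)]
    linarith
  refine (hx k h2 h1).mono fun N hN => hN.trans (le_of_eq ?_)
  refine congrArg (fun m : ℕ => (m : ℝ)) (congrArg Finset.card (Finset.filter_congr fun n _ => ?_))
  exact Iff.rfl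

end Pool.Agent.DigM
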